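import Pool.Agent.W564.SC.Defs

/-!
# SC-B: closing for diffeomorphisms commuting with a free torus action
-/

open scoped Manifold ContDiff Topology
open Filter Set Metric

universe u

namespace Pool.Agent.W554.SC

open Pool.Agent.H718R2.G Pool.Agent.W564.SC

section alg
variable {N : Type*} {k : ℕ} {F : N → N} {R : V k → N → N}

theorem iter_comm (hF : ∀ a y, F (R a y) = R a (F y)) (i : ℕ) (a : V k) (y : N) :
    F^[i] (R a y) = R a (F^[i] y) := by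
  induction i with
  | zero => rfl
  | succ i ih => rw [Function.iterate_succ_apply', ih, hF, ← Function.iterate_succ_apply' F]

theorem iter_H (hR0 : ∀ y, R 0 y = y) (hRa : ∀ a b y, R (a + b) y = R a (R b y))
    (hF : ∀ a y, F (R a y) = R a (F y)) (α : V k) {H : N → N} (hH : ∀ y, H y = F (R α y))
    (i : ℕ) (y : N) :
    H^[i] y = R ((i : ℝ) • α) (F^[i] y) := by
  induction i with
  | zero => simp [hR0]
  | succ i ih =>
    rw [Function.iterate_succ_apply', ih, hH, ← hRa, hF, ← Function.iterate_succ_apply' F]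
    congr 1
    push_cast
    rw [add_smul, one_smul, add_comm]

end alg

theorem norm_lt_of_coord {k : ℕ} {κ : ℝ} (hκ : 0 < κ) (α : V k)
    (h : ∀ j, 0 ≤ α j ∧ α j ≤ κ / (2 * (k + 1))) : ‖α‖ < κ := by
  have hk : (0 : ℝ) < k + 1 := by positivity
  have hsq : ‖α‖ ^ 2 ≤ (k : ℝ) * (κ / (2 * (k + 1))) ^ 2 := by
    rw [EuclideanSpace.norm_sq_eq]
    calc ∑ i, ‖α i‖ ^ 2 ≤ ∑ _i : Fin k, (κ / (2 * (k + 1))) ^ 2 := by
          refine Finset.sum_le_sum fun i _ => ?_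
          have := h i
          rw [Real.norm_of_nonneg this.1]
          exact pow_le_pow_left₀ this.1 this.2 2
      _ = _ := by simp
  have h2 : (k : ℝ) * (κ / (2 * (k + 1))) ^ 2 < κ ^ 2 := by
    have h3 : (k : ℝ) * (κ / (2 * (k + 1))) ^ 2 ≤ ((k : ℝ) + 1) ^ 2 * (κ / (2 * (k + 1))) ^ 2 := by
      apply mul_le_mul_of_nonneg_right _ (by positivity)
      nlinarith [(Nat.cast_nonneg k : (0 : ℝ) ≤ k)]
    have h4 : ((k : ℝ) + 1) ^ 2 * (κ / (2 * (k + 1))) ^ 2 = κ ^ 2 / 4 := by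
      field_simp
      ring
    have h5 : 0 < κ ^ 2 := by positivity
    linarith
  exact lt_of_pow_lt_pow_left₀ 2 hκ.le (hsq.trans_lt h2)

set_option maxHeartbeats 2000000 in
theorem core {N : Type*} {k n D r kU : ℕ} {F : N → N} {R : V k → N → N}
    (hR0 : ∀ y, R 0 y = y) (hRa : ∀ a b y, R (a + b) y = R a (R b y))
    (hRf : ∀ (a : V k) (y : N), (∀ j, ∃ m : ℤ, a j = m) → R a y = y)
    (hF : ∀ a y, F (R a y) = R a (F y))
    (src : Set N) (χ : N → V n) (e : V n ≃L[ℝ] V k × V D) (c : ℝ) (hc : 0 < c)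
    (AD1 : ∀ y ∈ src, ∀ γ : V k, ‖e (χ y)‖ ≤ c → ‖γ‖ ≤ c →
        R γ y ∈ src ∧ e (χ (R γ y)) = e (χ y) + (γ, 0))
    (AD2 : ∀ y ∈ src, ∀ γ : V k, R γ y ∈ src → ‖e (χ y)‖ ≤ c → ‖e (χ (R γ y))‖ ≤ c →
        ∃ l : V k, (∀ j, ∃ m : ℤ, l j = m) ∧ e (χ (R γ y)) = e (χ y) + (γ - l, 0))
    (hD : 1 ≤ D) (hk : 3 ≤ k) (hDk : r * D + 1 ≤ D + k) (hkU : kU ≤ r)
    (κ : ℝ) (hκ : 0 < κ) (h3 : S_COUNT) (h4 : S_PAIR)
    (hret : ∀ m : ℕ, ∃ ρ : ℝ, 0 < ρ ∧ ∀ y ∈ src, ‖χ y‖ < ρ → ∀ i, 1 ≤ i → i ≤ m →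
      ∀ γ : V k, R γ (F^[i] y) ∈ src → ρ ≤ ‖χ (R γ (F^[i] y))‖)
    (hnw : ∀ δ : ℝ, 0 < δ → ∃ m : ℕ, 1 ≤ m ∧ ∃ y ∈ src, ‖e (χ y)‖ < δ ∧ F^[m] y ∈ src ∧
      ‖e (χ (F^[m] y))‖ < δ) :
    ∃ (α : V k) (z' : N) (ρ : ℝ) (m : ℕ), ‖α‖ < κ ∧ z' ∈ src ∧ ‖χ z'‖ < κ ∧ 0 < ρ ∧ ρ < κ ∧
      1 ≤ m ∧ ∀ H : N → N, (∀ y, H y = F (R α y)) →
      H^[m] z' ∈ src ∧ ‖χ (H^[m] z') - χ z'‖ < κ * ρ ^ kU ∧
      ∀ i, 0 < i → i < m → H^[i] z' ∈ src → 2 * ρ ≤ ‖χ (H^[i] z') - χ z'‖ := by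
  classical
  -- constants
  obtain ⟨Ce, hCe1, hCeA, hCeB⟩ : ∃ Ce : ℝ, 1 ≤ Ce ∧ (∀ v : V n, ‖v‖ ≤ Ce * ‖e v‖) ∧
      (∀ v : V n, ‖e v‖ ≤ Ce * ‖v‖) := by
    refine ⟨max 1 (max ‖(e.symm : V k × V D →L[ℝ] V n)‖ ‖(e : V n →L[ℝ] V k × V D)‖),
      le_max_left _ _, fun v => ?_, fun v => ?_⟩
    · have h := (e.symm : V k × V D →L[ℝ] V n).le_opNorm (e v)
      have h' : (e.symm : V k × V D →L[ℝ] V n) (e v) = v := e.symm_apply_apply v
      rw [h'] at h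
      refine h.trans (mul_le_mul_of_nonneg_right ?_ (norm_nonneg _))
      exact (le_max_left _ _).trans (le_max_right _ _)
    · have h := (e : V n →L[ℝ] V k × V D).le_opNorm v
      refine h.trans (mul_le_mul_of_nonneg_right ?_ (norm_nonneg _))
      exact (le_max_right _ _).trans (le_max_right _ _)
  have hCe0 : 0 < Ce := by linarith
  set ε : ℝ := min 1 (κ / (2 * (k + 1))) with hε
  have hε0 : 0 < ε := lt_min one_pos (by positivity)
  obtain ⟨R₀, cc, hR₀, hcc, hcount⟩ := h3 k hk ε hε0 (min_le_left _ _)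
  obtain ⟨ρ₁, hρ₁, hret⟩ := hret R₀
  obtain ⟨C, hC, hpair⟩ := h4 D k hD cc (1 / 2) hcc (by norm_num) le_rfl
  set C2 : ℝ := 2 * Ce + 1 with hC2
  have hC2p : 0 < C2 := by positivity
  -- the radius ρ
  obtain ⟨ρ, hρ, hρ2, hρc, hρ1, hρκ, hρcc, hρK⟩ : ∃ ρ : ℝ, 0 < ρ ∧ ρ ≤ 1 / 2 ∧ 2 * ρ ≤ c ∧
      2 * Ce * ρ ≤ ρ₁ ∧ 2 * Ce * ρ ≤ κ ∧ ρ ≤ cc ∧
      Ce ^ D * C * (2 * ρ) * (2 * C2) ^ (r * D) < κ ^ D := by
    set K : ℝ := Ce ^ D * C * 2 * (2 * C2) ^ (r * D) with hK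
    have hK0 : 0 < K := by positivity
    refine ⟨min (1 / 2) (min (c / 2) (min (ρ₁ / (2 * Ce)) (min (κ / (2 * Ce)) (min cc
      (κ ^ D / (2 * K)))))), ?_, ?_, ?_, ?_, ?_, ?_, ?_⟩
    · refine lt_min (by norm_num) (lt_min (by positivity) (lt_min (by positivity)
        (lt_min (by positivity) (lt_min hcc (by positivity)))))
    · exact min_le_left _ _
    · have h : min (1 / 2) (min (c / 2) (min (ρ₁ / (2 * Ce)) (min (κ / (2 * Ce)) (min cc
        (κ ^ D / (2 * K)))))) ≤ c / 2 := (min_le_right _ _).trans (min_le_left _ _)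
      linarith
    · have h : min (1 / 2) (min (c / 2) (min (ρ₁ / (2 * Ce)) (min (κ / (2 * Ce)) (min cc
        (κ ^ D / (2 * K)))))) ≤ ρ₁ / (2 * Ce) :=
        (min_le_right _ _).trans ((min_le_right _ _).trans (min_le_left _ _))
      calc 2 * Ce * _ ≤ 2 * Ce * (ρ₁ / (2 * Ce)) := mul_le_mul_of_nonneg_left h (by positivity)
        _ = ρ₁ := by field_simp
    · have h : min (1 / 2) (min (c / 2) (min (ρ₁ / (2 * Ce)) (min (κ / (2 * Ce)) (min cc
        (κ ^ D / (2 * K)))))) ≤ κ / (2 * Ce) :=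
        (min_le_right _ _).trans ((min_le_right _ _).trans ((min_le_right _ _).trans
          (min_le_left _ _)))
      calc 2 * Ce * _ ≤ 2 * Ce * (κ / (2 * Ce)) := mul_le_mul_of_nonneg_left h (by positivity)
        _ = κ := by field_simp
    · exact (min_le_right _ _).trans ((min_le_right _ _).trans ((min_le_right _ _).trans
          ((min_le_right _ _).trans (min_le_left _ _))))
    · have h : min (1 / 2) (min (c / 2) (min (ρ₁ / (2 * Ce)) (min (κ / (2 * Ce)) (min cc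
        (κ ^ D / (2 * K)))))) ≤ κ ^ D / (2 * K) :=
        (min_le_right _ _).trans ((min_le_right _ _).trans ((min_le_right _ _).trans
          ((min_le_right _ _).trans (min_le_right _ _))))
      set q := min (1 / 2) (min (c / 2) (min (ρ₁ / (2 * Ce)) (min (κ / (2 * Ce)) (min cc
        (κ ^ D / (2 * K)))))) with hq
      calc Ce ^ D * C * (2 * q) * (2 * C2) ^ (r * D) = K * q := by rw [hK]; ring
        _ ≤ K * (κ ^ D / (2 * K)) := mul_le_mul_of_nonneg_left h hK0.le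
        _ = κ ^ D / 2 := by field_simp
        _ < κ ^ D := by
          have : 0 < κ ^ D := by positivity
          linarith
  obtain ⟨δ, hδ, hδρ, hδ1, hδC⟩ : ∃ δ : ℝ, 0 < δ ∧ δ ≤ ρ ∧ 2 * δ ≤ 1 ∧
      2 * δ ≤ C * ρ ^ (D + k) := by
    refine ⟨min ρ (C * ρ ^ (D + k) / 2), lt_min hρ (by positivity), min_le_left _ _, ?_, ?_⟩
    · have := min_le_left ρ (C * ρ ^ (D + k) / 2)
      linarith
    · have := min_le_right ρ (C * ρ ^ (D + k) / 2)
      linarith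
  obtain ⟨M, hM, y₀, hy₀, hy₀δ, hyM, hyMδ⟩ := hnw δ hδ
  -- moving to the zero section
  have zsec : ∀ y ∈ src, ‖e (χ y)‖ ≤ c → R (-(e (χ y)).1) y ∈ src ∧
      e (χ (R (-(e (χ y)).1) y)) = (0, (e (χ y)).2) := by
    intro y hy hyc
    have h := AD1 y hy (-(e (χ y)).1) hyc (by
      rw [norm_neg]; exact (norm_fst_le _).trans hyc)
    refine ⟨h.1, ?_⟩
    rw [h.2]
    ext <;> simp
  have uniq : ∀ (x : N) (γ γ' : V k) (s s' : V D), R γ x ∈ src → R γ' x ∈ src →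
      e (χ (R γ x)) = (0, s) → e (χ (R γ' x)) = (0, s') → ‖s‖ ≤ c → ‖s'‖ ≤ c →
      s' = s ∧ ∃ l : V k, (∀ j, ∃ m : ℤ, l j = m) ∧ γ' - γ = l := by
    intro x γ γ' s s' h1 h2 h3 h4 h5 h6
    have hx : R γ' x = R (γ' - γ) (R γ x) := by rw [← hRa, sub_add_cancel]
    have hn : ∀ s : V D, ‖((0 : V k), s)‖ = ‖s‖ := fun s => by
      rw [Prod.norm_def]; simp
    obtain ⟨l, hl, hl'⟩ := AD2 (R γ x) h1 (γ' - γ) (hx ▸ h2) (by rw [h3, hn]; exact h5)
      (by rw [← hx, h4, hn]; exact h6)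
    rw [← hx, h4, h3] at hl'
    have e1 := congrArg Prod.fst hl'
    have e2 := congrArg Prod.snd hl'
    simp only [Prod.fst_add, Prod.snd_add, zero_add, add_zero] at e1 e2
    exact ⟨e2, l, hl, (sub_eq_zero.mp e1.symm)⟩
  set T : Set ℕ := {i | ∃ (γ : V k) (s : V D), ‖s‖ < 2 * ρ ∧ R γ (F^[i] y₀) ∈ src ∧
    e (χ (R γ (F^[i] y₀))) = (0, s)} with hT
  have hchoose : ∀ i, ∃ (γ : V k) (s : V D), i ∈ T → (‖s‖ < 2 * ρ ∧ R γ (F^[i] y₀) ∈ src ∧
    e (χ (R γ (F^[i] y₀))) = (0, s)) := by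
    intro i
    by_cases hi : i ∈ T
    · obtain ⟨γ, s, h⟩ := hi
      exact ⟨γ, s, fun _ => h⟩
    · exact ⟨0, 0, fun h => absurd h hi⟩
  choose γ s hγs using hchoose
  -- membership in T from the chart
  have memT : ∀ (i : ℕ) (β : V k), R β (F^[i] y₀) ∈ src → ‖e (χ (R β (F^[i] y₀)))‖ < 2 * ρ →
      i ∈ T ∧ s i = (e (χ (R β (F^[i] y₀)))).2 ∧ ∃ l : V k, (∀ j, ∃ m : ℤ, l j = m) ∧
        (e (χ (R β (F^[i] y₀)))).1 = β - γ i - l := by
    intro i β hb1 hb2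
    set y := R β (F^[i] y₀) with hy
    obtain ⟨z1, z2⟩ := zsec y hb1 (hb2.le.trans hρc)
    have hy' : R (-(e (χ y)).1) y = R (-(e (χ y)).1 + β) (F^[i] y₀) := by rw [hRa, ← hy]
    rw [hy'] at z1 z2
    have hs2 : ‖(e (χ y)).2‖ < 2 * ρ := (norm_snd_le _).trans_lt hb2
    have hiT : i ∈ T := ⟨_, _, hs2, z1, z2⟩
    obtain ⟨a1, a2, a3⟩ := hγs i hiT
    obtain ⟨b1, l, hl, b2⟩ := uniq (F^[i] y₀) (γ i) (-(e (χ y)).1 + β) (s i) (e (χ y)).2 a2 z1 a3 z2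
      (a1.le.trans hρc) (hs2.le.trans hρc)
    refine ⟨hiT, b1.symm, l, hl, ?_⟩
    rw [← b2]
    abel
  have h0T := memT 0 0 (by rw [hR0]; exact hy₀) (by
    rw [hR0]; exact hy₀δ.trans_le (by change δ ≤ 2 * ρ; linarith))
  have hMT := memT M 0 (by rw [hR0]; exact hyM) (by
    rw [hR0]; exact hyMδ.trans_le (by linarith))
  rw [hR0] at h0T hMT
  have hs0 : ‖s 0‖ < δ := by
    rw [h0T.2.1]
    exact (norm_snd_le _).trans_lt hy₀δ
  have hsM : ‖s M‖ < δ := by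
    rw [hMT.2.1]
    exact (norm_snd_le _).trans_lt hyMδ
  obtain ⟨i, j, hiT, hjT, hij, hjM, hsij, hncard⟩ := hpair ρ hρ (by linarith) M T s hM h0T.1 hMT.1
    (fun i hi => (hγs i hi).1) (hs0.le.trans hδρ) (by
      have h1 : ‖s 0 - s M‖ ≤ 2 * δ := (norm_sub_le _ _).trans (by linarith)
      calc ‖s 0 - s M‖ ^ D ≤ (2 * δ) ^ D := pow_le_pow_left₀ (norm_nonneg _) h1 D
        _ ≤ (2 * δ) ^ 1 := pow_le_pow_of_le_one (by positivity) hδ1 hD
        _ = 2 * δ := pow_one _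
        _ ≤ _ := hδC)
  set d : ℝ := 2 * ρ - ‖s i‖ with hd
  have hd0 : 0 < d := by have := (hγs i hiT).1; linarith
  have hd2 : d ≤ 2 * ρ := by have := norm_nonneg (s i); linarith
  have hd1 : d ≤ 1 := by linarith
  obtain ⟨-, hyi, hpi⟩ := hγs i hiT
  obtain ⟨-, hyj, hpj⟩ := hγs j hjT
  have hnz : ∀ s : V D, ‖((0 : V k), s)‖ = ‖s‖ := fun s => by
    rw [Prod.norm_def]; simp
  -- two visits are far apart in time
  have hgap : ∀ l ∈ T, ∀ l' ∈ T, l < l' → l + R₀ ≤ l' := by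
    intro l hl l' hl' hll
    by_contra hcon
    push Not at hcon
    obtain ⟨a1, a2, a3⟩ := hγs l hl
    obtain ⟨b1, b2, b3⟩ := hγs l' hl'
    have hx : R (γ l') (F^[l'] y₀) = R (γ l' - γ l) (F^[l' - l] (R (γ l) (F^[l] y₀))) := by
      rw [iter_comm hF, ← hRa, sub_add_cancel, ← Function.iterate_add_apply,
        Nat.sub_add_cancel hll.le]
    have h1 : ‖χ (R (γ l) (F^[l] y₀))‖ < ρ₁ := by
      refine (hCeA _).trans_lt ?_
      rw [a3, hnz]
      calc Ce * ‖s l‖ < Ce * (2 * ρ) := mul_lt_mul_of_pos_left a1 hCe0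
        _ = 2 * Ce * ρ := by ring
        _ ≤ ρ₁ := hρ1
    have h2 : ‖χ (R (γ l') (F^[l'] y₀))‖ < ρ₁ := by
      refine (hCeA _).trans_lt ?_
      rw [b3, hnz]
      calc Ce * ‖s l'‖ < Ce * (2 * ρ) := mul_lt_mul_of_pos_left b1 hCe0
        _ = 2 * Ce * ρ := by ring
        _ ≤ ρ₁ := hρ1
    have h3 := hret _ a2 h1 (l' - l) (by omega) (by omega) (γ l' - γ l) (hx ▸ b2)
    rw [← hx] at h3
    linarith
  set m : ℕ := j - i with hm
  have hm1 : 1 ≤ m := by omega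
  set I : Finset ℕ := (Finset.range j).filter (fun t => i + t ∈ T ∧ 0 < t ∧ i + t < j ∧
    ‖s (i + t) - s i‖ < 1 / 2 * d) with hI
  have hIcard : (I.card : ℝ) ≤ cc * (1 / 2 * d)⁻¹ ^ k := by
    refine le_trans ?_ hncard
    rw [Nat.cast_le, ← Set.ncard_coe_finset]
    refine Set.ncard_le_ncard_of_injOn (fun t => i + t) ?_ ?_ ?_
    · intro t ht
      simp only [hI, Finset.coe_filter, Finset.mem_range, Set.mem_ofPred_eq] at ht
      exact ⟨ht.2.1, by omega, ht.2.2.2.1, ht.2.2.2.2⟩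
    · intro t _ t' _ h
      simpa using h
    · exact (Set.finite_Iio j).subset fun l hl => hl.2.2.1
  have hImem : ∀ t ∈ I, i + t ∈ T ∧ 0 < t ∧ i + t < j := by
    intro t ht
    simp only [hI, Finset.mem_filter, Finset.mem_range] at ht
    exact ⟨ht.2.1, ht.2.2.1, ht.2.2.2.1⟩
  obtain ⟨l, hl1, hl2⟩ := hcount (1 / 2 * d) (by positivity) (by linarith) m I
    (by have := hgap i hiT j hjT hij; omega)
    (fun t ht => by
      obtain ⟨t1, t2, t3⟩ := hImem t ht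
      have g1 := hgap i hiT (i + t) t1 (by omega)
      have g2 := hgap (i + t) t1 j hjT t3
      constructor <;> omega)
    (fun t ht t' ht' htt => by
      have g1 := hgap (i + t) (hImem t ht).1 (i + t') (hImem t' ht').1 (by omega)
      omega) hIcard (fun q => (γ i - γ j) q) (fun t q => (γ i - γ (i + t)) q)
  have hmR : (0 : ℝ) < m := by exact_mod_cast hm1
  set α : V k := WithLp.toLp 2 (fun q => ((l q : ℝ) - (γ i - γ j) q) / m) with hα
  have hαq : ∀ q, α q = ((l q : ℝ) - (γ i - γ j) q) / m := fun q => rfl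
  have hακ : ‖α‖ < κ := by
    refine norm_lt_of_coord hκ α fun q => ?_
    rw [hαq]
    exact ⟨(hl1 q).1, (hl1 q).2.trans (min_le_right _ _)⟩
  set yi : N := R (γ i) (F^[i] y₀) with hyidef
  set yj : N := R (γ j) (F^[j] y₀) with hyjdef
  -- the perturbed orbit
  have horb : ∀ H : N → N, (∀ y, H y = F (R α y)) → ∀ t : ℕ,
      H^[t] yi = R ((t : ℝ) • α + γ i) (F^[i + t] y₀) := by
    intro H hH t
    rw [iter_H hR0 hRa hF α hH, hyidef, iter_comm hF, ← hRa, ← Function.iterate_add_apply,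
      add_comm t i]
  have hend : ∀ H : N → N, (∀ y, H y = F (R α y)) → H^[m] yi = yj := by
    intro H hH
    rw [horb H hH m]
    have hij' : i + m = j := by omega
    rw [hij']
    have hsum : (m : ℝ) • α + γ i = (WithLp.toLp 2 (fun q => (l q : ℝ)) : V k) + γ j := by
      ext q
      have : (m : ℝ) * (((l q : ℝ) - (γ i - γ j) q) / m) = (l q : ℝ) - (γ i - γ j) q := by
        field_simp
      simp only [PiLp.add_apply, PiLp.smul_apply, smul_eq_mul, hαq, this]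
      rw [PiLp.sub_apply]
      ring
    rw [hsum, hRa, hRf _ _ (fun q => ⟨l q, rfl⟩)]
  -- sizes
  set ρ' : ℝ := d / (2 * C2) with hρ'
  have hρ'0 : 0 < ρ' := by positivity
  have hρ'κ : ρ' < κ := by
    have h1 : ρ' ≤ d / 2 := by
      rw [hρ']
      apply div_le_div_of_nonneg_left hd0.le (by norm_num)
      nlinarith
    have h2 : ρ ≤ Ce * ρ := by nlinarith
    have h3 : 2 * (Ce * ρ) ≤ κ := by linarith
    linarith
  have hρ'1 : ρ' ≤ 1 := by
    rw [hρ', div_le_one (by positivity)]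
    nlinarith
  refine ⟨α, yi, ρ', m, hακ, hyi, ?_, hρ'0, hρ'κ, hm1, fun H hH => ?_⟩
  · refine (hCeA _).trans_lt ?_
    rw [hpi, hnz]
    have := (hγs i hiT).1
    calc Ce * ‖s i‖ < Ce * (2 * ρ) := mul_lt_mul_of_pos_left this hCe0
      _ = 2 * Ce * ρ := by ring
      _ ≤ κ := hρκ
  rw [hend H hH]
  refine ⟨hyj, ?_, ?_⟩
  · -- the size of the jump
    have h1 : ‖χ yj - χ yi‖ ≤ Ce * ‖s i - s j‖ := by
      refine (hCeA _).trans ?_
      rw [map_sub, hpi, hpj]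
      have : ((0 : V k), s j) - (0, s i) = (0, s j - s i) := by
        rw [Prod.mk_sub_mk, sub_zero]
      rw [this, hnz, norm_sub_rev]
    have h2 : ‖χ yj - χ yi‖ ^ D < (κ * ρ' ^ r) ^ D := by
      calc ‖χ yj - χ yi‖ ^ D ≤ (Ce * ‖s i - s j‖) ^ D := pow_le_pow_left₀ (norm_nonneg _) h1 D
        _ = Ce ^ D * ‖s i - s j‖ ^ D := by rw [mul_pow]
        _ ≤ Ce ^ D * (C * d ^ (D + k)) := mul_le_mul_of_nonneg_left hsij (by positivity)
        _ ≤ Ce ^ D * (C * (d ^ (r * D + 1))) := by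
          apply mul_le_mul_of_nonneg_left _ (by positivity)
          apply mul_le_mul_of_nonneg_left _ hC.le
          exact pow_le_pow_of_le_one hd0.le hd1 hDk
        _ = Ce ^ D * C * d * d ^ (r * D) := by rw [pow_succ]; ring
        _ ≤ Ce ^ D * C * (2 * ρ) * d ^ (r * D) := by
          apply mul_le_mul_of_nonneg_right _ (by positivity)
          exact mul_le_mul_of_nonneg_left hd2 (by positivity)
        _ = (Ce ^ D * C * (2 * ρ) * (2 * C2) ^ (r * D)) * ρ' ^ (r * D) := by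
          rw [hρ', div_pow]
          field_simp
        _ < κ ^ D * ρ' ^ (r * D) := mul_lt_mul_of_pos_right hρK (by positivity)
        _ = (κ * ρ' ^ r) ^ D := by rw [mul_pow, ← pow_mul]
    have h3 : ‖χ yj - χ yi‖ < κ * ρ' ^ r := lt_of_pow_lt_pow_left₀ D (by positivity) h2
    refine h3.trans_le ?_
    exact mul_le_mul_of_nonneg_left (pow_le_pow_of_le_one hρ'0.le hρ'1 hkU) hκ.le
  · -- avoidance
    intro t ht htm hsrc
    by_contra hcon
    push Not at hcon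
    rw [horb H hH t] at hsrc hcon
    set y' : N := R ((t : ℝ) • α + γ i) (F^[i + t] y₀) with hy'
    have hdiff : ‖e (χ y') - e (χ yi)‖ < 1 / 2 * d := by
      rw [← map_sub]
      refine (hCeB _).trans_lt ?_
      calc Ce * ‖χ y' - χ yi‖ < Ce * (2 * ρ') := mul_lt_mul_of_pos_left hcon hCe0
        _ = Ce / C2 * d := by rw [hρ']; field_simp
        _ ≤ 1 / 2 * d := by
          apply mul_le_mul_of_nonneg_right _ hd0.le
          rw [div_le_div_iff₀ hC2p (by norm_num)]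
          linarith
    have hb2 : ‖e (χ y')‖ < 2 * ρ := by
      have h1 : ‖e (χ y')‖ ≤ ‖e (χ yi)‖ + ‖e (χ y') - e (χ yi)‖ := by
        have := norm_add_le (e (χ yi)) (e (χ y') - e (χ yi))
        rwa [add_sub_cancel] at this
      rw [hpi, hnz] at h1
      rw [hpi] at hdiff
      linarith
    obtain ⟨c1, c2, u, hu, c3⟩ := memT (i + t) ((t : ℝ) • α + γ i) hsrc hb2
    have htI : t ∈ I := by
      simp only [hI, Finset.mem_filter, Finset.mem_range]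
      refine ⟨by omega, c1, ht, by omega, ?_⟩
      rw [c2]
      have h1 := norm_snd_le (e (χ y') - e (χ yi))
      rw [Prod.snd_sub, hpi] at h1
      rw [hpi] at hdiff
      exact h1.trans_lt hdiff
    obtain ⟨q, hq⟩ := hl2 t htI
    obtain ⟨w, hw⟩ := hu q
    have h2 := hq w
    have h3 : (γ i - γ (i + t)) q + t * (((l q : ℝ) - (γ i - γ j) q) / m) - w =
        (e (χ y')).1 q := by
      rw [c3, ← hw]
      simp only [PiLp.add_apply, PiLp.sub_apply, PiLp.smul_apply, smul_eq_mul, hαq]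
      ring
    rw [h3] at h2
    have h4 : ‖(e (χ y')).1‖ < 1 / 2 * d := by
      have h1 := norm_fst_le (e (χ y') - e (χ yi))
      rw [Prod.fst_sub, hpi] at h1
      rw [hpi] at hdiff
      simp only [sub_zero] at h1
      exact h1.trans_lt hdiff
    have h5 : |(e (χ y')).1 q| ≤ ‖(e (χ y')).1‖ := by
      have := PiLp.norm_apply_le (e (χ y')).1 q
      rwa [Real.norm_eq_abs] at this
    linarith

set_option maxHeartbeats 1000000 in
theorem b (h1 : S_CL.{u}) (h2 : S_AD.{u}) (h3 : S_COUNT) (h4 : S_PAIR) (h5 : S_RET.{u})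
    (h6 : S_BP.{u}) (h7 : S_TF.{u}) : S_B.{u} := by
  intro k n N _ _ _ _ _ r hr hk hrk R hR F hF z hnw
  have hr' : (1 : ℕ∞) ≤ (r : ℕ∞) := by exact_mod_cast hr
  by_cases hper : ∃ (a : ℕ) (β : V k), 1 ≤ a ∧ F^[a] z = R β z
  · obtain ⟨a, β, ha, hβ⟩ := hper
    exact h6 k n N (r : ℕ∞) hr' R hR F hF z a β ha hβ
  push Not at hper
  obtain ⟨D, χ, e, c, hDk, hχ, hc, AD1, AD2⟩ := h2 k n N R hR z
  have hRf : ∀ (a : V k) (y : N), (∀ j, ∃ m : ℤ, a j = m) → R a y = y :=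
    fun a y h => (hR.free a y).2 h
  have hz0 : ‖e (χ z)‖ = 0 := by rw [hχ.zero, map_zero, norm_zero]
  -- nonwandering
  have hnw' : ∀ δ : ℝ, 0 < δ → ∃ m : ℕ, 1 ≤ m ∧ ∃ y ∈ χ.source, ‖e (χ y)‖ < δ ∧
      F^[m] y ∈ χ.source ∧ ‖e (χ (F^[m] y))‖ < δ := by
    intro δ hδ
    have hcont : ContinuousAt (fun y => ‖e (χ y)‖) z :=
      (e.continuous.continuousAt.comp (χ.continuousAt hχ.src)).norm
    have hW : {y | y ∈ χ.source ∧ ‖e (χ y)‖ < δ} ∈ 𝓝 z := by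
      have h1 : ∀ᶠ y in 𝓝 z, y ∈ χ.source := χ.open_source.mem_nhds hχ.src
      have h2 : ∀ᶠ y in 𝓝 z, ‖e (χ y)‖ < δ := hcont.eventually_lt_const (hz0.trans_lt hδ)
      exact h1.and h2
    obtain ⟨m, hm, y, hy, hy'⟩ := hnw _ hW
    exact ⟨m, hm, y, hy.1, hy.2, hy'.1, hy'.2⟩
  have hD : 1 ≤ D := by
    by_contra hD
    have hD0 : D = 0 := by omega
    subst hD0
    obtain ⟨m, hm, y, hy1, hy2, hy3, hy4⟩ := hnw' c hc
    have key : ∀ y ∈ χ.source, ‖e (χ y)‖ < c → ∃ γ : V k, y = R γ z := by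
      intro y hy hyc
      have h := AD1 z hχ.src (e (χ y)).1 (by rw [hz0]; exact hc.le)
        ((norm_fst_le _).trans hyc.le)
      refine ⟨(e (χ y)).1, ?_⟩
      apply χ.injOn hy h.1
      apply e.injective
      rw [h.2, hχ.zero, map_zero, zero_add]
      exact Prod.ext rfl (Subsingleton.elim _ _)
    obtain ⟨γ, hγ⟩ := key y hy1 hy2
    obtain ⟨γ', hγ'⟩ := key _ hy3 hy4
    apply hper m (γ' - γ) hm
    rw [hγ, iter_comm hF] at hγ'
    have : F^[m] z = R (-γ) (R γ (F^[m] z)) := by rw [← hR.add, neg_add_cancel, hR.zero]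
    rw [this, hγ', ← hR.add]
    congr 1
    abel
  obtain ⟨H, hH, hH0, hfam⟩ := h7 k n N (r : ℕ∞) R hR F
  intro U hU hFU
  obtain ⟨kU, hkU, κ, hκ, hcl⟩ := h1 n N (r : ℕ∞) hr' (V k) H hfam χ z hχ U hU (hH0 ▸ hFU)
  have hkU' : kU ≤ r := by exact_mod_cast hkU
  have hDk' : r * D + 1 ≤ D + k := by
    obtain ⟨r', rfl⟩ : ∃ r', r = r' + 1 := ⟨r - 1, by omega⟩
    rw [← hDk] at hrk
    simp only [Nat.add_sub_cancel] at hrk
    nlinarith
  obtain ⟨α, z', ρ, m, k1, k2, k3, k4, k5, k6, k7⟩ := core hR.zero hR.add hRf hF χ.source χ e c hc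
    AD1 AD2 hD hk hDk' hkU' κ hκ h3 h4
    (h5 k n N R hR F F.continuous hF z (fun a ha β => hper a β ha) χ hχ) hnw'
  obtain ⟨k7, k8, k9⟩ := k7 (H α) (hH α)
  exact hcl α z' ρ m k1 k2 k3 k4 k5 k6 k7 k8 k9

end Pool.Agent.W554.SC
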